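import Pool.Agent.Helper16.SD.GoalsD

/-!
# Project SD (MP_fc6b1e_nt), packet D_FLD: the field `F(μ_(p^n))`
-/

set_option autoImplicit false

namespace Pool.Agent.Helper60.SD.D_FLD

open NumberField Module IntermediateField
open Pool.Agent.Helper16.SD
open Pool.Agent.Helper38.FD (Chr)

section basic

variable {K : Type} [Field K] [NumberField K]

/-- the field of the elements fixed by `g` -/
def eqF (g : AlgebraicClosure K ≃ₐ[K] AlgebraicClosure K) :
    IntermediateField K (AlgebraicClosure K) where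
  carrier := {x | g x = x}
  mul_mem' := fun {a b} ha hb => by
    change g (a * b) = a * b
    rw [map_mul]
    exact congrArg₂ _ ha hb
  add_mem' := fun {a b} ha hb => by
    change g (a + b) = a + b
    rw [map_add]
    exact congrArg₂ _ ha hb
  algebraMap_mem' := fun r => g.commutes r
  inv_mem' := fun x hx => by
    change g x⁻¹ = x⁻¹
    rw [map_inv₀]
    exact congrArg _ hx

theorem mem_eqF (g : AlgebraicClosure K ≃ₐ[K] AlgebraicClosure K) (x : AlgebraicClosure K) :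
    x ∈ eqF g ↔ g x = x := Iff.rfl

/-- Galois correspondence -/
theorem le_of_fix (E M : IntermediateField K (AlgebraicClosure K))
    (h : ∀ g : AlgebraicClosure K ≃ₐ[K] AlgebraicClosure K, (∀ x ∈ M, g x = x) →
      ∀ x ∈ E, g x = x) : E ≤ M := by
  intro x hx
  have h1 := InfiniteGalois.fixedField_fixingSubgroup M
  rw [← h1, mem_fixedField_iff]
  intro f hf
  exact h f ((mem_fixingSubgroup_iff M f).1 hf) x hx

variable (p : ℕ) [hp : Fact p.Prime]

theorem enough (i : ℕ) : HasEnoughRootsOfUnity (AlgebraicClosure K) (p ^ i) := by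
  have : NeZero ((p ^ i : ℕ) : AlgebraicClosure K) :=
    ⟨Nat.cast_ne_zero.2 (pow_ne_zero _ (Fact.out : p.Prime).ne_zero)⟩
  infer_instance

/-- `g` fixes the `p^n`-th roots of unity -/
theorem cyc_fix (n : ℕ) (hn : 1 ≤ n) (g : AlgebraicClosure K ≃ₐ[K] AlgebraicClosure K) :
    (∀ ξ : AlgebraicClosure K, ξ ^ p ^ n = 1 → g ξ = ξ) ↔
      (p : ℤ_[p]) ^ n ∣ ((cyc p g : ℤ_[p]ˣ) : ℤ_[p]) - 1 := by
  have : ∀ i, HasEnoughRootsOfUnity (AlgebraicClosure K) (p ^ i) := enough p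
  have hspec : ∀ t : AlgebraicClosure K, t ^ p ^ n = 1 →
      g t = t ^ (((cyc p g : ℤ_[p]ˣ) : ℤ_[p]).toZModPow n).val := fun t ht =>
    cyclotomicCharacter.spec p (g : AlgebraicClosure K ≃+* AlgebraicClosure K) t ht
  have hpp : p.Prime := Fact.out
  have h1p : 1 < p ^ n := Nat.one_lt_pow (by omega) hpp.one_lt
  have : Fact (1 < p ^ n) := ⟨h1p⟩
  have : NeZero (p ^ n) := ⟨by omega⟩
  have hdvd : (p : ℤ_[p]) ^ n ∣ ((cyc p g : ℤ_[p]ˣ) : ℤ_[p]) - 1 ↔
      PadicInt.toZModPow n ((cyc p g : ℤ_[p]ˣ) : ℤ_[p]) = 1 := by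
    rw [← Ideal.mem_span_singleton, ← PadicInt.ker_toZModPow, RingHom.mem_ker, map_sub, map_one,
      sub_eq_zero]
  rw [hdvd]
  constructor
  · intro h
    obtain ⟨ζ, hζ⟩ := HasEnoughRootsOfUnity.exists_primitiveRoot (AlgebraicClosure K) (p ^ n)
    have h1 := hspec ζ hζ.pow_eq_one
    rw [h ζ hζ.pow_eq_one] at h1
    have h2 := hζ.pow_inj (i := 1) h1p (ZMod.val_lt _) (by rw [pow_one]; exact h1)
    apply ZMod.val_injective
    rw [← h2, ZMod.val_one]
  · intro h ξ hξ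
    rw [hspec ξ hξ, h, ZMod.val_one, pow_one]

/-- `x^(p-1) = 1`, `x ≡ 1` -/
theorem one_of (x : ℤ_[p]) (h1 : x ^ (p - 1) = 1) (h2 : (p : ℤ_[p]) ∣ x - 1) : x = 1 := by
  have hpp : p.Prime := Fact.out
  have h3 : (x - 1) * ∑ i ∈ Finset.range (p - 1), x ^ i = 0 := by
    rw [mul_geom_sum, h1, sub_self]
  rcases mul_eq_zero.1 h3 with h | h
  · exact sub_eq_zero.1 h
  · exfalso
    have h4 : (p : ℤ_[p]) ∣ ∑ i ∈ Finset.range (p - 1), (x ^ i - 1) := by
      refine Finset.dvd_sum fun i _ => h2.trans ?_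
      have h5 := sub_dvd_pow_sub_pow x 1 i
      rwa [one_pow] at h5
    rw [Finset.sum_sub_distrib, h, Finset.sum_const, Finset.card_range, nsmul_eq_mul, mul_one,
      zero_sub, dvd_neg, Nat.cast_sub hpp.one_le, Nat.cast_one] at h4
    have h5 : (p : ℤ_[p]) ∣ 1 := by
      have h6 := dvd_sub (dvd_refl (p : ℤ_[p])) h4
      rwa [sub_sub_cancel] at h6
    have h6 := isUnit_of_dvd_one h5
    exact PadicInt.prime_p.not_isUnit h6

end basic

theorem t : Pool.Agent.Helper16.SD.D_FLD := by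
  intro p hp K _ _ η om u hcyc χ F E _ _ hF m hE n hmn
  have hpp : p.Prime := Fact.out
  have hn : 1 ≤ n := by omega
  have hpos : 0 < p ^ n := pow_pos hpp.pos _
  let R : Set (AlgebraicClosure K) := {ξ | ξ ^ p ^ n = 1}
  have hRfin : R.Finite := by
    classical
    refine Set.Finite.subset
      (Finset.finite_toSet (Polynomial.nthRoots (p ^ n) (1 : AlgebraicClosure K)).toFinset) ?_
    intro ξ hξ
    rw [Finset.mem_coe, Multiset.mem_toFinset, Polynomial.mem_nthRoots hpos]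
    exact hξ
  have : Finite R := hRfin
  let C : IntermediateField K (AlgebraicClosure K) := adjoin K R
  have : FiniteDimensional K C :=
    finiteDimensional_adjoin (fun x _ => (Algebra.IsAlgebraic.isAlgebraic x).isIntegral)
  have : Normal K C := by
    rw [normal_iff_forall_map_le]
    intro σ
    change (adjoin K R).map σ ≤ adjoin K R
    rw [adjoin_map, adjoin_le_iff]
    rintro _ ⟨ξ, hξ, rfl⟩
    apply subset_adjoin
    change σ ξ ^ p ^ n = 1
    rw [← map_pow, hξ, map_one]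
  have : FiniteDimensional K F := Module.Finite.of_restrictScalars_finite ℚ K F
  have : Normal K F := IsGalois.to_normal
  let M : IntermediateField K (AlgebraicClosure K) := F ⊔ C
  have hMfin : FiniteDimensional K M := finiteDimensional_sup F C
  have hMnor : Normal K M := normal_sup K (AlgebraicClosure K) F C
  have hMnf : NumberField M := NumberField.of_module_finite K M
  have hMgal : IsGalois K M := ⟨⟩
  have hFM : F ≤ M := le_sup_left
  have hmu : ∀ ξ : AlgebraicClosure K, ξ ^ p ^ n = 1 → ξ ∈ M := fun ξ hξ =>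
    (le_sup_right : C ≤ M) (subset_adjoin K R hξ)
  have hlast : ∀ x ∈ M, ∀ S : IntermediateField K (AlgebraicClosure K), F ≤ S →
      (∀ ξ : AlgebraicClosure K, ξ ^ p ^ n = 1 → ξ ∈ S) → x ∈ S := by
    intro x hx S hS1 hS2
    exact (sup_le hS1 (adjoin_le_iff.2 hS2) : M ≤ S) hx
  have hfix : ∀ g : AlgebraicClosure K ≃ₐ[K] AlgebraicClosure K, (∀ x ∈ F, g x = x) →
      (∀ ξ : AlgebraicClosure K, ξ ^ p ^ n = 1 → g ξ = ξ) → ∀ x ∈ M, g x = x := by
    intro g h1 h2 x hx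
    exact hlast x hx (eqF g) h1 h2
  -- the elements which fix `M`
  have hcut : ∀ g : AlgebraicClosure K ≃ₐ[K] AlgebraicClosure K, (∀ x ∈ F, g x = x) →
      ((∀ x ∈ M, g x = x) ↔ η (n - 1) g = 1) := by
    intro g hg
    have h1 := (hF g).1 hg
    have h2 : ((cyc p g : ℤ_[p]ˣ) : ℤ_[p]) = ((u g : ℤ_[p]ˣ) : ℤ_[p]) := by
      rw [hcyc.mul g, h1.2, one_mul]
    have h3 := hcyc.cut (n - 1) g
    rw [Nat.sub_add_cancel hn] at h3
    rw [h3, ← h2, ← cyc_fix p n hn g]
    exact ⟨fun h ξ hξ => h ξ (hmu ξ hξ), fun h => hfix g hg h⟩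
  refine ⟨M, hMnf, hMgal, hFM, ?_, hmu, ?_, ?_, ?_, hlast⟩
  · -- `E ≤ M`
    apply le_of_fix
    intro g hg
    have hgF : ∀ x ∈ F, g x = x := fun x hx => hg x (hFM hx)
    have h1 := (hF g).1 hgF
    have h2 := (hcut g hgF).1 hg
    rw [hE]
    refine ⟨h1.1, ?_⟩
    rw [hcyc.cut] at h2 ⊢
    rw [Nat.sub_add_cancel hn] at h2
    exact (pow_dvd_pow _ hmn).trans h2
  · -- `M = E(μ)`
    intro g hg1 hg2
    refine hfix g ?_ hg2
    rw [hF]
    have h1 := (hE g).1 hg1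
    refine ⟨h1.1, ?_⟩
    have h2 := (cyc_fix p n hn g).1 hg2
    have h3 : (p : ℤ_[p]) ∣ ((cyc p g : ℤ_[p]ˣ) : ℤ_[p]) - 1 :=
      (dvd_pow_self _ (by omega)).trans h2
    rw [hcyc.mul g, Units.val_mul] at h3
    have h4 := hcyc.u_one g
    apply Units.ext
    rw [Units.val_one]
    apply one_of p
    · rw [← Units.val_pow_eq_pow_val, hcyc.om_pow, Units.val_one]
    · have h5 : (p : ℤ_[p]) ∣ ((om g : ℤ_[p]ˣ) : ℤ_[p]) * ((u g : ℤ_[p]ˣ) : ℤ_[p]) -
          ((om g : ℤ_[p]ˣ) : ℤ_[p]) := by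
        rw [← mul_sub_one]
        exact h4.mul_left _
      have h6 := dvd_sub h3 h5
      have h7 : ((om g : ℤ_[p]ˣ) : ℤ_[p]) * ((u g : ℤ_[p]ˣ) : ℤ_[p]) - 1 -
          (((om g : ℤ_[p]ˣ) : ℤ_[p]) * ((u g : ℤ_[p]ˣ) : ℤ_[p]) - ((om g : ℤ_[p]ˣ) : ℤ_[p])) =
          ((om g : ℤ_[p]ˣ) : ℤ_[p]) - 1 := by ring
      rwa [h7] at h6
  · -- commutators
    intro g h
    have hχ : χ (g * h * g⁻¹ * h⁻¹) = 1 := by
      rw [map_mul, map_mul, map_mul, map_inv, map_inv, mul_inv_cancel_comm, mul_inv_cancel]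
    have hom : om (g * h * g⁻¹ * h⁻¹) = 1 := by
      rw [map_mul, map_mul, map_mul, map_inv, map_inv, mul_inv_cancel_comm, mul_inv_cancel]
    have hη : η (n - 1) (g * h * g⁻¹ * h⁻¹) = 1 := by
      rw [map_mul, map_mul, map_mul, map_inv, map_inv, mul_inv_cancel_comm, mul_inv_cancel]
    exact (hcut _ ((hF _).2 ⟨hχ, hom⟩)).2 hη
  · -- cyclic
    let S : Subgroup ℂ_[p]ˣ := (fixingSubgroup F).map (η (n - 1))
    have hpow : ∀ (k : ℕ) (g : AlgebraicClosure K ≃ₐ[K] AlgebraicClosure K),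
        (η k g) ^ p ^ k = 1 := by
      intro k g
      induction k with
      | zero => rw [hcyc.tower.zero, MonoidHom.one_apply, one_pow]
      | succ k ih =>
        have h1 : (η (k + 1) g) ^ p = η k g :=
          congrArg (fun f : Chr K (AlgebraicClosure K) ℂ_[p] => f g) (hcyc.tower.pow k)
        rw [pow_succ' p, pow_mul, h1, ih]
    have hS : S ≤ rootsOfUnity (p ^ (n - 1)) ℂ_[p] := by
      rintro _ ⟨g, -, rfl⟩
      rw [mem_rootsOfUnity]
      exact hpow (n - 1) g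
    have : NeZero (p ^ (n - 1)) := ⟨(pow_pos hpp.pos _).ne'⟩
    have : Finite S :=
      Finite.of_injective (Subgroup.inclusion hS) (Subgroup.inclusion_injective hS)
    obtain ⟨⟨s, hs⟩, hsg⟩ := IsCyclic.exists_generator (α := S)
    obtain ⟨γ, hγ, rfl⟩ := id hs
    have hγF : ∀ x ∈ F, γ x = x := (mem_fixingSubgroup_iff F γ).1 hγ
    refine ⟨γ, hγF, fun a ha => ?_⟩
    obtain ⟨i, hi⟩ := Subgroup.mem_zpowers_iff.1
      (hsg ⟨η (n - 1) a, a, (mem_fixingSubgroup_iff F a).2 ha, rfl⟩)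
    have hi' : η (n - 1) γ ^ i = η (n - 1) a := by
      have h1 := congrArg Subtype.val hi
      rwa [Subgroup.coe_zpow] at h1
    refine ⟨-i, ?_⟩
    have h2 : γ ^ (-i) * a ∈ fixingSubgroup F :=
      mul_mem (zpow_mem hγ _) ((mem_fixingSubgroup_iff F a).2 ha)
    refine (hcut _ ((mem_fixingSubgroup_iff F _).1 h2)).2 ?_
    rw [map_mul, map_zpow, zpow_neg, hi', inv_mul_cancel]

end Pool.Agent.Helper60.SD.D_FLD
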