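import Pool.Agent.Helper16.SD.GoalsE
import Pool.Agent.Helper70.PW.LPRM

/-!
# Project SD (MP_fc6b1e_nt), packet B_CNG: valuations and embeddings
-/

set_option autoImplicit false

namespace Pool.Agent.Helper60.SD.B_CNG

open NumberField Module IsDedekindDomain
open Pool.Agent.Helper16.SD
open Pool.Agent.Helper51.SigLeo Pool.Agent.Helper51.RP

variable {p : ℕ} [hp : Fact p.Prime] {F : Type} [Field F] [NumberField F]

theorem eq_wt (τ : F →+* ℂ_[p]) (W : HeightOneSpectrum (𝓞 F)) (h : PrimeOf τ W) :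
    W = Pool.Agent.Helper32.RDV.wt p τ := by
  apply HeightOneSpectrum.ext
  ext x
  rw [h x]
  exact (Pool.Agent.Helper32.RDV.mem_PI τ x).symm

theorem val_le_iff (τ : F →+* ℂ_[p]) (W : HeightOneSpectrum (𝓞 F)) (h : PrimeOf τ W) (x y : F) :
    W.valuation F x ≤ W.valuation F y ↔ ‖τ x‖ ≤ ‖τ y‖ := by
  rw [eq_wt τ W h]
  by_cases hy : y = 0
  · subst hy
    rw [map_zero, map_zero, norm_zero, norm_le_zero_iff, map_eq_zero, le_zero_iff,
      Valuation.zero_iff]
  · have hy1 : (Pool.Agent.Helper32.RDV.wt p τ).valuation F y ≠ 0 :=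
      (Valuation.ne_zero_iff _).2 hy
    have hy2 : 0 < ‖τ y‖ := norm_pos_iff.2 (by
      rw [Ne, map_eq_zero]
      exact hy)
    have h1 := Pool.Agent.Helper70.PW.le_one_iff (p := p) τ (x / y)
    rw [map_div₀, map_div₀, norm_div, div_le_one hy2, div_le_one₀ (zero_lt_iff.2 hy1)] at h1
    exact h1

theorem t : Pool.Agent.Helper16.SD.B_CNG := by
  intro p hp F _ _
  refine ⟨fun τ W h x y => val_le_iff τ W h x y, ?_, ?_⟩
  · intro T N v
    have key : ∀ (τ : F →+* ℂ_[p]) (W : HeightOneSpectrum (𝓞 F)), PrimeOf τ W →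
        (W.valuation F (v - 1) ≤ W.valuation F (p : F) ^ N ↔ ‖τ v - 1‖ ≤ (1 / p : ℝ) ^ N) := by
      intro τ W h
      rw [← map_pow, val_le_iff τ W h, map_sub, map_one, map_pow, map_natCast, norm_pow,
        Pool.Agent.Helper32.RDV.norm_p' (p := p) (k := ℂ_[p])]
    constructor
    · intro h τ hτ
      exact (key τ (Pool.Agent.Helper32.RDV.wt p τ) (fun x => Iff.rfl)).1
        (h _ ⟨τ, hτ, fun x => Iff.rfl⟩)
    · rintro h W ⟨τ, hτ, hW⟩
      exact (key τ W hW).2 (h τ hτ)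
  · intro τ
    exact ⟨Pool.Agent.Helper32.RDV.wt p τ, fun x => Iff.rfl, Pool.Agent.Helper32.RDV.wt_p τ⟩

end Pool.Agent.Helper60.SD.B_CNG
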