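import Pool.Agent.Helper16.SD.GoalsS

/-!
# Project SD (MP_fc6b1e_nt), packet A_MVD
-/

set_option autoImplicit false

namespace Pool.Agent.Helper60.SD.A_MVD

open NumberField Module
open Pool.Agent.Helper16.SD
open Pool.Agent.Helper38.FD (Chr)

section coc

variable {I Γ A : Type} [Group Γ] [MulAction Γ I] [CommGroup A]

/-- a cocycle is trivial at `1` -/
theorem coc_one (m : Γ → I → A) (hm : ∀ γ δ i, m (γ * δ) i = m γ (δ • i) * m δ i) (i : I) :
    m 1 i = 1 := by
  have h := hm 1 1 i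
  rw [one_mul, one_smul] at h
  exact left_eq_mul.mp h

/-- conjugation of an element which acts trivially -/
theorem coc_conj (m : Γ → I → A) (hm : ∀ γ δ i, m (γ * δ) i = m γ (δ • i) * m δ i) (δ g : Γ)
    (hg : ∀ i : I, g • i = i) (i : I) : m (δ * g * δ⁻¹) i = m g (δ⁻¹ • i) := by
  rw [mul_assoc, hm, hm g, mul_smul, hg]
  have h := hm δ δ⁻¹ i
  rw [mul_inv_cancel, coc_one m hm] at h
  calc m δ (δ⁻¹ • i) * (m g (δ⁻¹ • i) * m δ⁻¹ i)
      = m g (δ⁻¹ • i) * (m δ (δ⁻¹ • i) * m δ⁻¹ i) := by rw [mul_left_comm]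
    _ = m g (δ⁻¹ • i) := by rw [← h, mul_one]

end coc

theorem smul_def' {K : Type} [Field K] (γ : AlgebraicClosure K ≃+* AlgebraicClosure K)
    (σ : K →+* AlgebraicClosure K) (x : K) : (γ • σ) x = γ (σ x) := rfl

theorem t (hT : A_TRV) (hC : A_CM) : Pool.Agent.Helper16.SD.A_MVD := by
  intro F₀ K _ _ _ _ _ _ _ hd p _ ιinf c hcc hconj F _ _ χ hmv E _ j χ' hχ s h hs hsh hcoc i
  obtain ⟨J, hJJ, hJ⟩ := hC F₀ K hd
  have hJc := hJ ιinf c hconj
  obtain ⟨g, g', hg1, hg2, hg3⟩ := hmv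
  have hcinv : c⁻¹ = c := inv_eq_of_mul_eq_one_left hcc
  have hccx : ∀ x, c (c x) = x := fun x => by
    have h1 := congrArg (fun f : AlgebraicClosure K ≃+* AlgebraicClosure K => f x) hcc
    exact h1
  let m : (AlgebraicClosure K ≃+* AlgebraicClosure K) → (K →+* AlgebraicClosure K) → Eˣ :=
    fun γ σ => χ' (h γ σ)
  have hm : ∀ γ δ σ, m (γ * δ) σ = m γ (δ • σ) * m δ σ := fun γ δ σ => by
    change χ' _ = χ' _ * χ' _
    rw [hcoc, map_mul]
  let σ0 : K →+* AlgebraicClosure K := algebraMap K (AlgebraicClosure K)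
  -- the value at the base embedding
  have hbase : ∀ a : AlgebraicClosure K ≃ₐ[K] AlgebraicClosure K,
      m a.toRingEquiv σ0 = χ' (AlgEquiv.restrictNormalHom F a) := by
    intro a
    let φ : F →ₐ[K] AlgebraicClosure K :=
      { toRingHom := s σ0
        commutes' := fun r => by
          have h1 := congrArg (fun f : K →+* AlgebraicClosure K => f r) (hs σ0)
          exact h1 }
    let h0 : F ≃ₐ[K] F := (Normal.algHomEquivAut K (AlgebraicClosure K) F) φ
    have hh0 : ∀ x : F, s σ0 x = ((h0 x : F) : AlgebraicClosure K) := by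
      intro x
      have h1 : (Normal.algHomEquivAut K (AlgebraicClosure K) F).symm h0 = φ :=
        Equiv.symm_apply_apply _ _
      have h2 := congrArg (fun f : F →ₐ[K] AlgebraicClosure K => f x) h1
      exact h2.symm
    have ha : a.toRingEquiv • σ0 = σ0 := by
      ext x
      exact a.commutes x
    have h3 : AlgEquiv.restrictNormalHom F a * h0 = h0 * h a.toRingEquiv σ0 := by
      ext x
      have h4 := hsh a.toRingEquiv σ0 x
      rw [ha, hh0, hh0] at h4
      have h5 := AlgEquiv.restrictNormalHom_apply F a (h0 x)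
      rw [AlgEquiv.mul_apply, AlgEquiv.mul_apply, h5]
      exact h4
    have h6 := congrArg χ' h3
    rw [map_mul, map_mul, mul_comm] at h6
    exact (mul_left_cancel h6).symm
  -- `g' = c g c⁻¹`
  have hg' : g'.toRingEquiv = c * g.toRingEquiv * c⁻¹ := by
    rw [hcinv]
    ext y
    have h1 := hg2 (c y) y (by rw [hconj, Complex.conj_conj])
    rw [← hconj] at h1
    exact ιinf.injective h1
  have hgt : ∀ τ : K →+* AlgebraicClosure K, g.toRingEquiv • τ = τ := fun τ => by
    ext x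
    exact hg1 τ x
  have hne : m g.toRingEquiv σ0 ≠ m (c * g.toRingEquiv * c⁻¹) σ0 := by
    rw [← hg', hbase, hbase]
    intro h1
    apply hg3
    apply Units.ext
    rw [← hχ, ← hχ, h1]
  obtain ⟨γ, rfl⟩ := hT K σ0 i
  refine ⟨γ * g.toRingEquiv * γ⁻¹, fun τ => ?_, ?_⟩
  · rw [mul_smul, mul_smul, hgt, smul_inv_smul]
  · change m _ _ ≠ m _ _
    have e1 : m (γ * g.toRingEquiv * γ⁻¹) (γ • σ0) = m g.toRingEquiv σ0 := by
      rw [coc_conj m hm γ _ hgt, inv_smul_smul]
    have e2 : c * (γ * g.toRingEquiv * γ⁻¹) * c⁻¹ = (c * γ) * g.toRingEquiv * (c * γ)⁻¹ := by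
      group
    have e3 : (c * γ)⁻¹ • (γ • σ0) = c⁻¹ • σ0 := by
      rw [hcinv, mul_inv_rev, mul_smul, hcinv]
      ext x
      have h1 : (c • (γ • σ0)) x = (γ • σ0) (J x) := (hJc (γ • σ0)).1 x
      have h2 : (c • σ0) x = σ0 (J x) := (hJc σ0).1 x
      rw [smul_def', h1, h2, smul_def']
      exact γ.symm_apply_apply _
    have e4 : m (c * (γ * g.toRingEquiv * γ⁻¹) * c⁻¹) (γ • σ0) =
        m (c * g.toRingEquiv * c⁻¹) σ0 := by
      rw [e2, coc_conj m hm (c * γ) _ hgt, e3, coc_conj m hm c _ hgt]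
    rw [e1, e4]
    exact hne

end Pool.Agent.Helper60.SD.A_MVD
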